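import Pool.Agent.helper83.SC.Stmt

/-!
Module BP3 of project sc (MP_d2d7b9_gt): test functions, locality, plateau.
-/

open scoped Pointwise ContDiff
open MeasureTheory Set Filter Topology

namespace Pool.Agent.helper83.SC

theorem BP3_sum_CV {m : ℕ} {F : Fin m → E m → ℝ} (hF : ∀ j, CV (F j)) (J : Finset (Fin m)) :
    CV (fun x => ∑ j ∈ J, F j x) := by
  classical
  unfold CV
  induction J using Finset.induction_on with
  | empty => simpa using convexOn_const (0 : ℝ) (convex_univ (𝕜 := ℝ) (E := E m))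
  | insert a s ha ih =>
    have : (fun x => ∑ j ∈ insert a s, F j x) = fun x => F a x + ∑ j ∈ s, F j x := by
      funext x; rw [Finset.sum_insert ha]
    rw [this]
    exact (hF a).add ih

theorem B_add_test_of (hA : A_add_test_stmt) : B_add_test_stmt := by
  intro m φ ψ F hφ hψ hF
  unfold B
  rw [← mul_add, ← Finset.sum_add_distrib]
  congr 1
  refine Finset.sum_congr rfl fun J _ => ?_
  rw [hA hφ hψ (BP3_sum_CV hF J)]
  ring

theorem B_smul_test_of (hA : A_smul_test_stmt) : B_smul_test_stmt := by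
  intro m φ F hφ c hc
  unfold B
  rw [mul_left_comm, Finset.mul_sum _ _ c]
  congr 1
  refine Finset.sum_congr rfl fun J _ => ?_
  rw [hA hφ hc]
  ring

theorem B_test_mono_of (hA : A_add_test_stmt) (hB : B_nonneg_stmt) : B_test_mono_stmt := by
  intro m φ ψ F hφ hψ hF h
  have hd : Test (fun x => ψ x - φ x) := by
    refine ⟨hψ.1.sub hφ.1, ?_, fun x => sub_nonneg.mpr (h x)⟩
    have := hψ.2.1.add (hφ.2.1.neg)
    have he : (fun x => ψ x - φ x) = ψ + -φ := by
      funext x; simp [sub_eq_add_neg]
    rw [he]; exact this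
  have h1 := B_add_test_of hA hφ hd hF
  have h2 := hB hd hF
  have h3 : (fun x => φ x + (ψ x - φ x)) = ψ := by funext x; ring
  rw [h3] at h1
  linarith

theorem B_congr_of (hA : A_congr_stmt) : B_congr_stmt := by
  intro m φ F G hφ hF hG U hU hφU he
  unfold B
  congr 1
  refine Finset.sum_congr rfl fun J _ => ?_
  rw [hA hφ (BP3_sum_CV hF J) (BP3_sum_CV hG J) hU hφU
    (fun x hx => Finset.sum_congr rfl fun j _ => he j x hx)]

theorem B_plateau_of (hA : A_plateau_stmt) : B_plateau_stmt := by
  intro m φ F G hφ hF hG r₁ r hr he h1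
  unfold B
  congr 1
  refine Finset.sum_congr rfl fun J _ => ?_
  rw [hA hφ (BP3_sum_CV hF J) (BP3_sum_CV hG J) hr
    (fun x hx => Finset.sum_congr rfl fun j _ => he j x hx) h1]

end Pool.Agent.helper83.SC
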