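import Pool.Agent.helper83.SC.Stmt

/-!
Module CP of project sc (MP_d2d7b9_gt): the Alexandrov measure charges neighbourhoods of extreme
points.
-/

open scoped Pointwise ContDiff
open MeasureTheory Set Filter Topology

namespace Pool.Agent.helper83.SC

theorem CP_sel_nonneg {m : ℕ} {φ : E m → ℝ} (hφ : Test φ) (h : E m → ℝ) (p : E m) :
    0 ≤ sel φ h p := by
  unfold sel
  refine Real.sSup_nonneg ?_
  rintro _ ⟨y, _, rfl⟩
  exact hφ.2.2 y

theorem A_pos_of (hGA : exists_cut_stmt) (hint : sel_integrable_stmt) : A_pos_stmt := by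
  intro m φ h hφ hh h0 r hr h1
  obtain ⟨a, c, μ, hμ, hc, hcut⟩ := hGA hh h0 (show 0 < r / 2 by positivity)
  have hcont : Continuous h := by
    have := hh.continuousOn isOpen_univ
    rwa [← continuousOn_univ]
  have hsel : ∀ p ∈ Metric.ball a μ, sel φ h p = 1 := by
    intro p hp
    rw [mem_ball_iff_norm] at hp
    have hout : ∀ y : E m, r / 2 ≤ ‖y‖ → h 0 < h y - inner ℝ p y := by
      intro y hy
      have h2 := hcut y hy
      have h3 : inner ℝ p y = inner ℝ a y + inner ℝ (p - a) y := by
        rw [inner_sub_left]; ring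
      have h4 : inner ℝ (p - a) y ≤ ‖p - a‖ * ‖y‖ := real_inner_le_norm _ _
      have h5 : ‖p - a‖ * ‖y‖ ≤ μ * ‖y‖ := by gcongr
      linarith
    have hcont2 : Continuous fun y : E m => h y - inner ℝ p y :=
      hcont.sub (continuous_const.inner continuous_id)
    obtain ⟨y0, hy0, hmin⟩ := (isCompact_closedBall (0 : E m) (r / 2)).exists_isMinOn
      ⟨0, Metric.mem_closedBall_self (by positivity)⟩ hcont2.continuousOn
    have hy0min : IsArgmin h p y0 := by
      intro z
      rcases le_or_gt ‖z‖ (r / 2) with hz | hz
      · exact hmin (mem_closedBall_zero_iff.mpr hz)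
      · have h2 := hout z hz.le
        have h3 : h y0 - inner ℝ p y0 ≤ h 0 - inner ℝ p 0 :=
          hmin (mem_closedBall_zero_iff.mpr (by rw [norm_zero]; positivity))
        rw [inner_zero_right] at h3
        linarith
    have hall : ∀ y, IsArgmin h p y → φ y = 1 := by
      intro y hy
      refine h1 y ?_
      by_contra hcon
      push Not at hcon
      have h2 := hout y (by linarith)
      have h3 := hy 0
      rw [inner_zero_right] at h3
      linarith
    unfold sel
    have : φ '' {y | IsArgmin h p y} = {1} := by
      ext t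
      constructor
      · rintro ⟨y, hy, rfl⟩
        exact hall y hy
      · intro ht
        rw [mem_singleton_iff] at ht
        exact ⟨y0, hy0min, by rw [ht]; exact hall y0 hy0min⟩
    rw [this, csSup_singleton]
  unfold A
  rw [integral_pos_iff_support_of_nonneg (fun p => CP_sel_nonneg hφ h p) (hint hφ hh)]
  refine lt_of_lt_of_le (Metric.measure_ball_pos volume a hμ) (measure_mono ?_)
  intro p hp
  rw [Function.mem_support, hsel p hp]
  exact one_ne_zero

end Pool.Agent.helper83.SC
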