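import Pool.Agent.helper83.SC.Stmt

/-!
Module TF of project sc (MP_d2d7b9_gt): test functions.
-/

open scoped Pointwise ContDiff
open MeasureTheory Set Filter Topology

namespace Pool.Agent.helper83.SC

theorem exists_test : exists_test_stmt := by
  intro m r₁ r₂ h1 h2
  let b : ContDiffBump (0 : E m) := ⟨r₁, (r₁ + r₂) / 2, h1, by linarith⟩
  refine ⟨b, ⟨b.contDiff, b.hasCompactSupport, fun x => b.nonneg⟩, fun x => b.le_one, ?_, ?_⟩
  · intro x hx
    refine b.one_of_mem_closedBall ?_
    rw [mem_closedBall_zero_iff]; exact hx.le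
  · rw [b.tsupport_eq]
    intro x hx
    rw [mem_closedBall_zero_iff] at hx
    rw [mem_ball_zero_iff]
    have : b.rOut = (r₁ + r₂) / 2 := rfl
    rw [this] at hx
    linarith

end Pool.Agent.helper83.SC
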