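import Pool.Agent.helper82.SC.SpecA

/-!
# sp: module WPW, the white arm
-/

namespace Pool.Agent.helper82.SC

open Relation

theorem WPW_con_symm {W : Set V} {u v : V} (h : Con W u v) : Con W v u := by
  obtain ⟨hu, h⟩ := h
  have key : v ∈ W ∧ ReflTransGen (fun a b => TAdj a b ∧ b ∈ W) v u := by
    induction h with
    | refl => exact ⟨hu, ReflTransGen.refl⟩
    | tail _ hbc ih =>
      exact ⟨hbc.2, ReflTransGen.head ⟨hbc.1.symm, ih.1⟩ ih.2⟩
  exact key

theorem WPW_fin (d : Fin 3) : d = 0 ∨ d = 1 ∨ d = 2 := by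
  fin_cases d <;> simp

theorem WPW_fin_cases (d e : Fin 3) : e = d ∨ e = d + 1 ∨ e = d + 2 := by
  fin_cases d <;> fin_cases e <;> simp

theorem WPW_add_ne (m : Fin 3) : m + 1 ≠ m + 2 := by
  fin_cases m <;> simp

theorem WPW_FU {D : Dom} {f : F} {d : Fin 3} (h : D.FU f) (h1 : S f d ∉ D.U)
    (h2 : S f (d + 1) ∉ D.U) : S f (d + 2) ∈ D.U := by
  obtain ⟨e, he⟩ := h
  rcases WPW_fin_cases d e with rfl | rfl | rfl
  · exact absurd he h1
  · exact absurd he h2
  · exact he

theorem WPW_star_not (D : Dom) (m : Fin 3) : ¬ D.FU (star (D.a m)).1 := by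
  rintro ⟨e, he⟩
  have he' : S (tw (D.a m).1 (D.a m).2) e ∈ D.U := he
  rcases WPW_fin_cases (D.a m).2 e with h | h | h
  · rw [h, S_tw] at he'
    exact D.second m he'
  · rw [h, S_tw'] at he'
    exact D.first m he'
  · rw [h] at he'
    exact D.outer _ _ (D.third m) (D.first m) (D.second m) he'

theorem WPW_bdry (D : Dom) (j : Fin 3) :
    Bdry D (fun v => if D.sec v = j then 1 else 0) (D.a j) := by
  refine ⟨⟨_, D.third j⟩, D.first j, D.second j, ?_⟩
  rintro ⟨f, d⟩ hf h1 h2
  simp only at hf h1 h2 ⊢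
  have h3 := WPW_FU hf h1 h2
  by_cases hs : D.sec (S f d) = D.sec (S f (d + 1))
  · have hne : ((f, d) : Dart) ≠ D.a j := by
      intro h
      have e1 := D.sec_first j
      have e2 := D.sec_second j
      rw [← h] at e1 e2
      simp only at e1 e2
      rw [e1, e2] at hs
      exact WPW_add_ne j hs
    have hw : D.wall (f, d) = 0 := by simp [Dom.wall, hs]
    rw [hw, hs, if_neg hne, add_zero]
    exact CharTwo.add_self_eq_zero _
  · obtain ⟨m, hm⟩ := D.only f d h3 h1 h2 hs
    have hw : D.wall (f, d) = 1 := by simp [Dom.wall, hs]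
    have e1 := D.sec_first m
    have e2 := D.sec_second m
    rw [← hm] at e1 e2
    simp only at e1 e2
    rw [hw, e1, e2]
    have hiff : ((f, d) : Dart) = D.a j ↔ m = j := by
      constructor
      · intro h
        have e3 := D.sec_first j
        rw [← h] at e3
        simp only at e3
        rw [e1] at e3
        exact add_right_cancel e3
      · rintro rfl
        exact hm
    simp only [hiff]
    clear hiff e1 e2 hw hs h3 hm
    fin_cases m <;> fin_cases j <;> simp <;> rfl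

theorem WPW (hCA : CA_stmt) (hWS : WS_stmt) : WPW_stmt := by
  classical
  intro D j π hπ
  have hbij := hCA D (fun v => if D.sec v = j then 1 else 0) (D.a j) (WPW_bdry D j)
  set β : V → ZMod 2 := fun v => if D.sec v = j then 1 else 0 with hβ
  have hfin : {s : Finset V | s ⊆ D.U ∧ ArmW D j π s}.Finite := by
    refine (Finset.finite_toSet D.U.powerset).subset ?_
    rintro s ⟨hs, -⟩
    exact Finset.mem_coe.2 (Finset.mem_powerset.2 hs)
  unfold Dom.Mx prob
  have hpow : (0 : ℝ) < 2 ^ D.U.card := by positivity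
  rw [div_le_div_iff_of_pos_right hpow]
  have hsub : {ψ | ψ ∈ D.Conf (D.a j) ∧ ∃ x, D.Bf π x.1 ∧ D.Cn ψ (star (D.a (j + 1))) x} ⊆
      psix D β '' {s : Finset V | s ⊆ D.U ∧ ArmW D j π s} := by
    rintro ψ ⟨hψ, x, hx, hcn⟩
    obtain ⟨s, hs, rfl⟩ := hbij.surjOn hψ
    have hs' : s ⊆ D.U := hs
    refine ⟨s, ⟨hs', ?_⟩, rfl⟩
    have hFx : D.FU x.1 := hx.1
    have hψc : ∀ x : Dart, D.FU x.1 → psix D β s x =
        cx D β s (S x.1 x.2) + cx D β s (S x.1 (x.2 + 1)) := by
      intro x hx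
      simp [psix, hx]
    have hne : star (D.a (j + 1)) ≠ x := by
      intro h
      apply WPW_star_not D (j + 1)
      rw [h]
      exact hFx
    have hone : psix D β s x = 1 := by
      rcases ReflTransGen.cases_tail hcn with h | ⟨y, -, hy⟩
      · exact absurd h.symm hne
      · exact hy.2.1
    -- a white site of the face of `x`
    have hwhite : ∃ d, (S x.1 d = S x.1 x.2 ∨ S x.1 d = S x.1 (x.2 + 1)) ∧
        cx D β s (S x.1 d) = 1 := by
      rw [hψc x hFx] at hone
      have hz : ∀ a b : ZMod 2, a + b = 1 → a = 1 ∨ b = 1 := by decide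
      rcases hz _ _ hone with h | h
      · exact ⟨x.2, Or.inl rfl, h⟩
      · exact ⟨x.2 + 1, Or.inr rfl, h⟩
    obtain ⟨d', hd', hv⟩ := hwhite
    have hvU : S x.1 d' ∈ D.U := by
      by_contra hcon
      have h1 : cx D β s (S x.1 d') = β (S x.1 d') := by simp [cx, hcon]
      rw [h1] at hv
      have h2 := hπ x.1 d' hx hcon
      simp [hβ, h2] at hv
    have hwU : ∀ w, w ∈ D.U → cx D β s w = 1 → w ∈ s := by
      intro w hw h
      by_contra hcon
      simp [cx, hw, hcon] at h
    have hwN : ∀ w, w ∉ D.U → cx D β s w = 1 → D.sec w = j := by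
      intro w hw h
      by_contra hcon
      simp [cx, hw, hβ, hcon] at h
    -- the corner
    have hu0 : S (D.a (j + 1)).1 ((D.a (j + 1)).2 + 1) ∉ D.U := D.second (j + 1)
    have hu1 : D.sec (S (D.a (j + 1)).1 ((D.a (j + 1)).2 + 1)) = j := by
      rw [D.sec_second (j + 1)]
      fin_cases j <;> rfl
    have hu2 : cx D β s (S (D.a (j + 1)).1 ((D.a (j + 1)).2 + 1)) = 1 := by
      simp [cx, hu0, hβ, hu1]
    have hcon := hWS D (psix D β s) (cx D β s) 1 (star (D.a (j + 1))) x hψc hne hcn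
      (S (D.a (j + 1)).1 ((D.a (j + 1)).2 + 1)) (S x.1 d')
      (Or.inl (S_tw (D.a (j + 1)).1 (D.a (j + 1)).2).symm) hd' hu2 hv
    obtain ⟨-, hpath⟩ := WPW_con_symm hcon
    have key : ∀ b, ReflTransGen (fun a b => TAdj a b ∧ b ∈ {w | cx D β s w = 1}) (S x.1 d') b →
        (b ∈ s ∧ ReflTransGen (fun a b => TAdj a b ∧ b ∈ (s : Set V)) (S x.1 d') b) ∨
        (∃ w v, ReflTransGen (fun a b => TAdj a b ∧ b ∈ (s : Set V)) (S x.1 d') w ∧
          TAdj w v ∧ v ∉ D.U ∧ D.sec v = j) := by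
      intro b hb
      induction hb with
      | refl => exact Or.inl ⟨hwU _ hvU hv, ReflTransGen.refl⟩
      | tail _ hbc ih =>
        rename_i b c _
        rcases ih with ⟨hbs, hpb⟩ | h
        · by_cases hc : c ∈ D.U
          · have := hwU c hc hbc.2
            exact Or.inl ⟨this, ReflTransGen.tail hpb ⟨hbc.1, this⟩⟩
          · exact Or.inr ⟨b, c, hpb, hbc.1, hc, hwN c hc hbc.2⟩
        · exact Or.inr h
    rcases key _ hpath with ⟨h, -⟩ | ⟨w, v, hw, hadj, hvn, hsec⟩
    · exact absurd (hs' h) hu0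
    · exact ⟨S x.1 d', w, ⟨hwU _ hvU hv, hw⟩, ⟨x.1, d', hx, rfl⟩, v, hvn, hadj, hsec⟩
  have h1 := Set.ncard_le_ncard hsub (hfin.image _)
  exact_mod_cast h1.trans (Set.ncard_image_le hfin)

end Pool.Agent.helper82.SC
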